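import Pool.Agent.T9h80.IO.Elim

/-!
# Names for numbers and trees
-/

set_option autoImplicit false

namespace Pool.Agent.T9h80.IO

open Pool.Agent.TH672 (Fm Str upd num digits varStr LogK)
open Pool.Agent.TH636.BC
open Pool.Agent.T9h6.BC
open Pool.Agent.T9h88.IO

/-! ### The number of trees -/

/-- the code of a tree -/
def enc2 : Tree → List Bool
  | .nil => [false]
  | .node a b => true :: (enc2 a ++ enc2 b)

theorem enc2_length : ∀ t : Tree, (enc2 t).length = 2 * t.size + 1
  | .nil => rfl
  | .node a b => by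
    have h1 := enc2_length a
    have h2 := enc2_length b
    simp only [enc2, List.length_cons, List.length_append, Tree.size, h1, h2]
    ring

theorem enc2_inj : ∀ (s t : Tree) (x y : List Bool), enc2 s ++ x = enc2 t ++ y → s = t ∧ x = y
  | .nil, .nil, x, y, h => by
    simp only [enc2, List.cons_append, List.nil_append, List.cons.injEq, true_and] at h
    exact ⟨rfl, h⟩
  | .nil, .node a b, x, y, h => by simp [enc2] at h
  | .node a b, .nil, x, y, h => by simp [enc2] at h
  | .node a b, .node c d, x, y, h => by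
    simp only [enc2, List.cons_append, List.append_assoc, List.cons.injEq, true_and] at h
    obtain ⟨h1, h2⟩ := enc2_inj a c _ _ h
    obtain ⟨h3, h4⟩ := enc2_inj b d _ _ h2
    exact ⟨by rw [h1, h3], h4⟩

/-- the set of the trees with at most `K` inner nodes -/
theorem trees_fin (K : ℕ) : ∃ S : Finset Tree, (∀ t, t ∈ S ↔ t.size ≤ K) ∧
    S.card ≤ 4 ^ (K + 1) := by
  classical
  let f : {t : Tree // t.size ≤ K} → List.Vector Bool (2 * K + 1) := fun t =>
    ⟨enc2 t.1 ++ List.replicate (2 * K - 2 * t.1.size) false, by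
      have := t.2
      rw [List.length_append, enc2_length, List.length_replicate]
      omega⟩
  have hf : Function.Injective f := by
    intro s t h
    exact Subtype.ext (enc2_inj s.1 t.1 _ _ (congrArg Subtype.val h)).1
  have hfin : Finite {t : Tree // t.size ≤ K} := Finite.of_injective f hf
  have : Fintype {t : Tree // t.size ≤ K} := Fintype.ofFinite _
  have h1 := Fintype.card_le_of_injective f hf
  rw [card_vector, Fintype.card_bool] at h1
  refine ⟨(Finset.univ : Finset {t : Tree // t.size ≤ K}).image Subtype.val, ?_, ?_⟩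
  · intro t
    rw [Finset.mem_image]
    constructor
    · rintro ⟨s, -, rfl⟩
      exact s.2
    · intro h
      exact ⟨⟨t, h⟩, Finset.mem_univ _, rfl⟩
  · refine Finset.card_image_le.trans ?_
    rw [Finset.card_univ]
    refine h1.trans ?_
    calc 2 ^ (2 * K + 1) ≤ 2 ^ (2 * (K + 1)) := Nat.pow_le_pow_right (by norm_num) (by omega)
      _ = 4 ^ (K + 1) := by rw [pow_mul]; norm_num

/-! ### The lists of trees -/

/-- every tree of the list is new and its subtrees come later in the list -/
def SC : List Tree → Prop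
  | [] => True
  | s :: Ts => s ∉ Ts ∧ (∀ a b, s = .node a b → a ∈ Ts ∧ b ∈ Ts) ∧ SC Ts

theorem sc_sub : ∀ {Ts : List Tree}, SC Ts → ∀ a b : Tree,
    Pool.Agent.T9h88.IO.Tree.node a b ∈ Ts → a ∈ Ts ∧ b ∈ Ts
  | [], _, _, _, h => by simp at h
  | s :: Ts, ⟨h1, h2, h3⟩, a, b, h => by
    rcases List.mem_cons.1 h with h | h
    · obtain ⟨h4, h5⟩ := h2 a b h.symm
      exact ⟨List.mem_cons_of_mem _ h4, List.mem_cons_of_mem _ h5⟩
    · obtain ⟨h4, h5⟩ := sc_sub h3 a b h
      exact ⟨List.mem_cons_of_mem _ h4, List.mem_cons_of_mem _ h5⟩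

/-- a list of trees of the same size in front of a list of all smaller trees -/
theorem sc_append (n : ℕ) : ∀ (L Ts : List Tree), L.Nodup → (∀ s ∈ L, s.size = n) →
    (∀ t, t ∈ Ts ↔ t.size < n) → SC Ts → SC (L ++ Ts)
  | [], _, _, _, _, h => h
  | s :: L, Ts, h1, h2, h3, h4 => by
    rw [List.nodup_cons] at h1
    have hs := h2 s (by simp)
    refine ⟨?_, ?_, sc_append n L Ts h1.2 (fun t ht => h2 t (by simp [ht])) h3 h4⟩
    · intro h
      rcases List.mem_append.1 h with h | h
      · exact h1.1 h
      · have := (h3 s).1 h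
        omega
    · rintro a b rfl
      have e : a.size + b.size + 1 = n := hs
      exact ⟨List.mem_append_right _ ((h3 a).2 (by omega)),
        List.mem_append_right _ ((h3 b).2 (by omega))⟩

/-- the list of all trees with less than `n` inner nodes -/
theorem trees_list (n : ℕ) : ∃ Ts : List Tree, SC Ts ∧ ∀ t, t ∈ Ts ↔ t.size < n := by
  classical
  induction n with
  | zero => exact ⟨[], trivial, fun t => by simp⟩
  | succ n ih =>
    obtain ⟨Ts, h1, h2⟩ := ih
    obtain ⟨S, hS, -⟩ := trees_fin n
    refine ⟨(S.filter fun t => t.size = n).toList ++ Ts,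
      sc_append n _ Ts (Finset.nodup_toList _) ?_ h2 h1, ?_⟩
    · intro s hs
      rw [Finset.mem_toList, Finset.mem_filter] at hs
      exact hs.2
    · intro t
      rw [List.mem_append, Finset.mem_toList, Finset.mem_filter, hS, h2]
      omega

theorem sc_nodup : ∀ {Ts : List Tree}, SC Ts → Ts.Nodup
  | [], _ => List.nodup_nil
  | _ :: _, ⟨h1, _, h3⟩ => List.nodup_cons.2 ⟨h1, sc_nodup h3⟩

/-! ### Names -/

/-- the name of a tree -/
def nm (M : ℕ) : List Tree → Tree → ℕ
  | [], _ => 0
  | s :: Ts, t => if t = s then M + 1 + Ts.length else nm M Ts t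

/-- the list of the atoms for the numbers -/
def numL : ℕ → List At
  | 0 => [.zero 0]
  | M + 1 => .succ M (M + 1) :: numL M

/-- the atom for a tree with the name `j` -/
def atT (ν : Tree → ℕ) (j : ℕ) : Tree → At
  | .nil => .op iNil j j j j
  | .node a b => .op iNode (ν a) (ν b) j j

/-- the list of the atoms for the numbers and the trees -/
def trL (M : ℕ) : List Tree → List At
  | [] => numL M
  | s :: Ts => atT (nm M Ts) (M + 1 + Ts.length) s :: trL M Ts

theorem numL_length : ∀ M, (numL M).length = M + 1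
  | 0 => rfl
  | M + 1 => by rw [numL, List.length_cons, numL_length M]

theorem trL_length (M : ℕ) : ∀ Ts, (trL M Ts).length = M + 1 + Ts.length
  | [] => numL_length M
  | s :: Ts => by rw [trL, List.length_cons, trL_length M Ts, List.length_cons]; omega

theorem numL_good : ∀ M, Good (numL M)
  | 0 => ⟨.zero, trivial⟩
  | M + 1 => by
    refine ⟨?_, numL_good M⟩
    rw [numL_length]
    exact .succ M (by omega)

theorem nm_lt (M : ℕ) : ∀ (Ts : List Tree) (t : Tree), t ∈ Ts → nm M Ts t < M + 1 + Ts.length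
  | [], _, h => by simp at h
  | s :: Ts, t, h => by
    rw [nm, List.length_cons]
    split_ifs with e
    · omega
    · have := nm_lt M Ts t ((List.mem_cons.1 h).resolve_left e)
      omega

theorem trL_good (M : ℕ) : ∀ Ts, SC Ts → Good (trL M Ts)
  | [], _ => numL_good M
  | s :: Ts, ⟨h1, h2, h3⟩ => by
    refine ⟨?_, trL_good M Ts h3⟩
    rw [trL_length]
    cases s with
    | nil => exact .nil
    | node a b =>
      obtain ⟨h4, h5⟩ := h2 a b rfl
      exact .node _ _ (nm_lt M Ts a h4) (nm_lt M Ts b h5)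

theorem numL_zero : ∀ M, At.zero 0 ∈ numL M
  | 0 => by simp [numL]
  | M + 1 => List.mem_cons_of_mem _ (numL_zero M)

theorem numL_succ : ∀ M i, i < M → At.succ i (i + 1) ∈ numL M
  | 0, i, h => by omega
  | M + 1, i, h => by
    rw [numL]
    by_cases e : i = M
    · subst e; exact List.mem_cons_self ..
    · exact List.mem_cons_of_mem _ (numL_succ M i (by omega))

theorem numL_sub (M : ℕ) : ∀ (Ts : List Tree) (a : At), a ∈ numL M → a ∈ trL M Ts
  | [], _, h => h
  | _ :: Ts, a, h => List.mem_cons_of_mem _ (numL_sub M Ts a h)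

theorem nm_cons {M : ℕ} {s t : Tree} {Ts : List Tree} (h1 : s ∉ Ts) (h2 : t ∈ Ts) :
    nm M (s :: Ts) t = nm M Ts t := by
  rw [nm, if_neg]
  rintro rfl
  exact h1 h2

theorem mem_trL (M : ℕ) : ∀ Ts, SC Ts → ∀ t ∈ Ts, atT (nm M Ts) (nm M Ts t) t ∈ trL M Ts
  | [], _, t, h => by simp at h
  | s :: Ts, ⟨h1, h2, h3⟩, t, h => by
    by_cases e : t = s
    · subst e
      have e1 : nm M (t :: Ts) t = M + 1 + Ts.length := by rw [nm, if_pos rfl]
      rw [e1]
      have e2 : atT (nm M (t :: Ts)) (M + 1 + Ts.length) t =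
          atT (nm M Ts) (M + 1 + Ts.length) t := by
        cases t with
        | nil => rfl
        | node a b =>
          obtain ⟨h4, h5⟩ := h2 a b rfl
          simp only [atT, nm_cons h1 h4, nm_cons h1 h5]
      rw [e2]
      exact List.mem_cons_self ..
    · have ht := (List.mem_cons.1 h).resolve_left e
      have h6 := mem_trL M Ts h3 t ht
      have e2 : atT (nm M (s :: Ts)) (nm M (s :: Ts) t) t = atT (nm M Ts) (nm M Ts t) t := by
        rw [nm_cons h1 ht]
        cases t with
        | nil => rfl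
        | node a b =>
          obtain ⟨h4, h5⟩ := sc_sub h3 a b ht
          simp only [atT, nm_cons h1 h4, nm_cons h1 h5]
      rw [e2]
      exact List.mem_cons_of_mem _ h6

theorem exists_ctx (M K : ℕ) : ∃ (N : List At) (ν : Tree → ℕ), Ctx N ν M K := by
  classical
  obtain ⟨Ts, h1, h2⟩ := trees_list (K + 1)
  obtain ⟨S, hS1, hS2⟩ := trees_fin K
  have hmem : ∀ t : Tree, t.size ≤ K → t ∈ Ts := fun t ht => (h2 t).2 (by omega)
  have hlen : Ts.length ≤ 4 ^ (K + 1) := by
    refine le_trans ?_ hS2
    rw [← List.toFinset_card_of_nodup (sc_nodup h1)]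
    refine Finset.card_le_card ?_
    intro t ht
    rw [List.mem_toFinset, h2] at ht
    exact (hS1 t).2 (by omega)
  refine ⟨trL M Ts, nm M Ts, ?_⟩
  constructor
  · exact trL_good M Ts h1
  · exact numL_sub M Ts _ (numL_zero M)
  · intro i hi
    exact numL_sub M Ts _ (numL_succ M i hi)
  · exact mem_trL M Ts h1 .nil (hmem _ (Nat.zero_le _))
  · intro a b hab
    exact mem_trL M Ts h1 (.node a b) (hmem _ hab)
  · intro t ht
    rw [trL_length]
    exact nm_lt M Ts t (hmem t ht)
  · rw [trL_length]; omega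
  · rw [trL_length]; omega

theorem sz_intro {j : ℕ} {a : At} (h : Intro j a) : sz (a.ren (· + VB)).fm ≤ 4 * j + 260 := by
  have hVB : VB = 60 := rfl
  cases h with
  | zero =>
    have e1 : sz ((At.zero j).ren (· + VB)).fm = 4 + (j + VB + 1) := sz_zero _
    omega
  | succ i hi =>
    have e1 : sz ((At.succ i j).ren (· + VB)).fm = 4 + (i + VB + 1) + (j + VB + 1) := sz_succ _ _
    omega
  | nil =>
    have e1 : sz ((At.op iNil j j j j).ren (· + VB)).fm =
      4 + (iNil + 1) + (j + VB + 1) + (j + VB + 1) + (j + VB + 1) + (j + VB + 1) := sz_op _ _ _ _ _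
    have : iNil = 0 := rfl
    omega
  | node b c hb hc =>
    have e1 : sz ((At.op iNode b c j j).ren (· + VB)).fm =
      4 + (iNode + 1) + (b + VB + 1) + (c + VB + 1) + (j + VB + 1) + (j + VB + 1) :=
      sz_op _ _ _ _ _
    have : iNode = 1 := rfl
    omega

theorem sz_good : ∀ N : List At, Good N → sz (ctx N) ≤ 12 + N.length * (4 * N.length + 280)
  | [], _ => by
    show sz (.imp .bot .bot) ≤ _
    rw [sz_imp, sz_bot]
    omega
  | a :: N, ⟨h1, h2⟩ => by
    have h3 := sz_good N h2
    have h4 := sz_intro h1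
    have h5 : sz (ctx (a :: N)) = 20 + sz (a.ren (· + VB)).fm + sz (ctx N) := by
      show sz (.and _ _) = _
      rw [sz_and]
    rw [h5, List.length_cons]
    nlinarith

/-- (S5) -/
theorem sNames : SNames := by
  refine ⟨exists_ctx, fun N hN => ⟨good_lt hN, ?_, ?_⟩⟩
  · refine (sz_good N hN).trans ?_
    nlinarith [Nat.zero_le N.length]
  · intro x hx h
    have := free_ctx (good_lt hN) h
    omega

end Pool.Agent.T9h80.IO
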