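import Pool.Agent.T9h88.IO.Spec

/-!
# Elimination of names
-/

set_option autoImplicit false

namespace Pool.Agent.T9h80.IO

open Pool.Agent.TH672 (Fm Str upd num digits varStr LogK)
open Pool.Agent.TH636.BC
open Pool.Agent.T9h6.BC
open Pool.Agent.T9h88.IO
open Pool.Agent.TH838.J1549 (step_mono isProof_append)
open Pool.Agent.TH690.J100 (subst_of_not_free)

variable {Γ : List Fml} {φ ψ : Fml}

theorem len_strs_cons (φ : Fml) (π : List Fml) :
    (strs (φ :: π)).length = sz φ + (strs π).length := by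
  simp [strs, sz]

theorem len_strs_append (π π' : List Fml) :
    (strs (π ++ π')).length = (strs π).length + (strs π').length := by
  simp [strs]

theorem prv_mono {m m' : ℕ} (h : m ≤ m') (h1 : Proves Γ m φ) : Proves Γ m' φ := by
  obtain ⟨π, a, b⟩ := h1
  exact ⟨π, a, b.trans h⟩

theorem sz_le_of_prv {m : ℕ} (h : Proves Γ m φ) : sz φ ≤ m := by
  obtain ⟨π, a, b⟩ := h
  rw [len_strs_cons] at b
  omega

theorem prv_log (h : LogK φ) : Proves Γ (sz φ) φ :=
  ⟨[], ⟨trivial, .inr (.inl h)⟩, by rw [len_strs_cons]; simp [strs]⟩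

theorem prv_ax (h : φ ∈ Γ) : Proves Γ (sz φ) φ :=
  ⟨[], ⟨trivial, .inl h⟩, by rw [len_strs_cons]; simp [strs]⟩

theorem prv_mp {m1 m2 : ℕ} (h1 : Proves Γ m1 (.imp φ ψ)) (h2 : Proves Γ m2 φ) :
    Proves Γ (m1 + m2 + sz ψ) ψ := by
  obtain ⟨π1, a1, a2⟩ := h1
  obtain ⟨π2, b1, b2⟩ := h2
  refine ⟨(φ.imp ψ :: π1) ++ (φ :: π2), ⟨isProof_append a1 b1,
    .inr (.inr (.inl ⟨φ, by simp, by simp⟩))⟩, ?_⟩
  rw [len_strs_cons, len_strs_append]
  omega

theorem prv_gen {m : ℕ} (x : ℕ) (h : Proves Γ m φ) : Proves Γ (m + sz (.all x φ)) (.all x φ) := by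
  obtain ⟨π, a1, a2⟩ := h
  refine ⟨φ :: π, ⟨a1, .inr (.inr (.inr ⟨φ, by simp, x, rfl⟩))⟩, ?_⟩
  rw [len_strs_cons]
  omega

theorem len_strs_le (B : ℕ) : ∀ π : List Fml, (∀ ψ ∈ π, sz ψ ≤ B) →
    (strs π).length ≤ π.length * B
  | [], _ => by simp [strs]
  | φ :: π, h => by
    rw [len_strs_cons, List.length_cons, Nat.succ_mul]
    have h1 := h φ (by simp)
    have h2 := len_strs_le B π fun ψ hψ => h ψ (by simp [hψ])
    omega

theorem prv_of_dv {k B L : ℕ} (h : Dv Γ k B L φ) : Proves Γ (L * B) φ := by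
  obtain ⟨π, h1, h2, h3⟩ := h
  exact ⟨π, h1, (len_strs_le B _ fun ψ hψ => (h3 ψ hψ).sz).trans (Nat.mul_le_mul_right _ h2)⟩

/-- a common complexity of four formulas -/
theorem exists_both (a b c d : Fml) : ∃ k, Both k a ∧ Both k b ∧ Both k c ∧ Both k d :=
  ⟨max (max (qd a) (qd b)) (max (qd c) (qd d)), (both_qd a).mono (by omega),
    (both_qd b).mono (by omega), (both_qd c).mono (by omega), (both_qd d).mono (by omega)⟩

theorem taut (θ : Fml) (h : ∀ (S : Str ℕ) (v : ℕ → S.M), Fm.Sat S θ v) :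
    ∃ C, ∀ (Γ : List Fml) (M : ℕ) (a b c d : Fml), sz a ≤ M → sz b ≤ M → sz c ≤ M → sz d ≤ M →
      Proves Γ (C * (M + 1)) ((TD.prp (fo a b c d) M).tr θ) := by
  obtain ⟨C, hC1, hC⟩ := prp_rule θ h
  refine ⟨C * C, fun Γ M a b c d s1 s2 s3 s4 => ?_⟩
  obtain ⟨k, k1, k2, k3, k4⟩ := exists_both a b c d
  have h1 := prv_of_dv (hC Γ k M (fo a b c d) (fo_both k1 k2 k3 k4) (fo_sz s1 s2 s3 s4))
  rwa [← mul_assoc] at h1

/-- `(a ∧ H → φ) → (H ∧ ¬φ → ¬a)` -/
theorem taut1 : ∃ C, ∀ (Γ : List Fml) (M : ℕ) (a H φ : Fml), sz a ≤ M → sz H ≤ M → sz φ ≤ M →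
    Proves Γ (C * (M + 1)) (.imp (.imp (.and a H) φ) (.imp (.and H (.neg φ)) (.neg a))) := by
  obtain ⟨C, hC⟩ := taut (.imp (.imp (.and (pp 0) (pp 1)) (pp 2))
    (.imp (.and (pp 1) (.neg (pp 2))) (.neg (pp 0)))) (by
      intro S v; simp only [Fm.sat_imp, Fm.sat_and, Fm.sat_neg]; tauto)
  exact ⟨C, fun Γ M a H φ s1 s2 s3 => hC Γ M a H φ φ s1 s2 s3 s3⟩

/-- `(H ∧ ¬φ → X) → (¬X → (H → φ))` -/
theorem taut2 : ∃ C, ∀ (Γ : List Fml) (M : ℕ) (X H φ : Fml), sz X ≤ M → sz H ≤ M → sz φ ≤ M →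
    Proves Γ (C * (M + 1)) (.imp (.imp (.and H (.neg φ)) X) (.imp (.neg X) (.imp H φ))) := by
  obtain ⟨C, hC⟩ := taut (.imp (.imp (.and (pp 1) (.neg (pp 2))) (pp 0))
    (.imp (.neg (pp 0)) (.imp (pp 1) (pp 2)))) (by
      intro S v; simp only [Fm.sat_imp, Fm.sat_and, Fm.sat_neg]; tauto)
  exact ⟨C, fun Γ M X H φ s1 s2 s3 => hC Γ M X H φ φ s1 s2 s3 s3⟩

/-- `(a → b) → ((b → c) → (a → c))` -/
theorem taut3 : ∃ C, ∀ (Γ : List Fml) (M : ℕ) (a b c : Fml), sz a ≤ M → sz b ≤ M → sz c ≤ M →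
    Proves Γ (C * (M + 1)) (.imp (.imp a b) (.imp (.imp b c) (.imp a c))) := by
  obtain ⟨C, hC⟩ := taut (.imp (.imp (pp 0) (pp 1)) (.imp (.imp (pp 1) (pp 2))
    (.imp (pp 0) (pp 2)))) (by intro S v; simp only [Fm.sat_imp]; tauto)
  exact ⟨C, fun Γ M a b c s1 s2 s3 => hC Γ M a b c c s1 s2 s3 s3⟩

theorem freeFor_of_not_free {x y : ℕ} : ∀ φ : Fml, ¬ φ.Free x → φ.FreeFor y x := by
  intro φ
  induction φ with
  | all u φ ih =>
    intro h
    by_cases e : u = x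
    · exact .inl e
    · refine .inr (.inl fun h' => h ⟨fun h'' => e h''.symm, h'⟩)
  | imp φ ψ ih1 ih2 => exact fun h => ⟨ih1 fun h' => h (.inl h'), ih2 fun h' => h (.inr h')⟩
  | _ => exact fun _ => trivial

/-- One step of the elimination: `a` is the formula of the new name `v`, `a'` is the formula with
the variable `y` instead of `v`. -/
theorem step : ∃ C, ∀ (Γ : List Fml) (M m : ℕ) (a a' H φ : Fml) (v y : ℕ), sz a ≤ M →
    sz H ≤ M → sz φ ≤ M → sz a' ≤ M → v ≤ M → y ≤ M → a.FreeFor y v → a.subst v y = a' →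
    ¬ H.Free v → ¬ H.Free y → φ.Closed → Proves Γ M (.ex y a') → Proves Γ m (.imp (.and a H) φ) →
    Proves Γ (m + C * (M + 1)) (.imp H φ) := by
  obtain ⟨C1, h1⟩ := taut1
  obtain ⟨C2, h2⟩ := taut2
  obtain ⟨C3, h3⟩ := taut3
  refine ⟨C1 + 29 * C2 + 29 * C3 + 1000, ?_⟩
  intro Γ M m a a' H φ v y sa sH sφ sa' hv hy hff hsub hHv hHy hφ hE h
  have p1 := sz_pos a
  have p2 := sz_pos H
  have p3 := sz_pos φ
  -- `H ∧ ¬φ → ¬a`
  have e1 := prv_mp (h1 Γ M a H φ sa sH sφ) h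
  set G : Fml := .and H (.neg φ) with hG
  have sG : sz G ≤ 2 * M + 28 := by rw [hG, sz_and, sz_neg]; omega
  have hGv : ¬ G.Free v := by
    rintro ((h' | (h' | h') | h') | h')
    · exact hHv h'
    · exact hφ v h'
    · exact h'
    · exact h'
    · exact h'
  have hGy : ¬ G.Free y := by
    rintro ((h' | (h' | h') | h') | h')
    · exact hHy h'
    · exact hφ y h'
    · exact h'
    · exact h'
    · exact h'
  -- `H ∧ ¬φ → ∀ v ¬a`
  have e2 := prv_mp (prv_log (Γ := Γ) (LogK.dist v G (.neg a) hGv)) (prv_gen v e1)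
  -- `H ∧ ¬φ → ¬a'`
  have hs : (Fm.neg a).subst v y = Fm.neg a' := by
    show Fm.imp (a.subst v y) Fm.bot = Fm.neg a'
    rw [hsub]
    rfl
  have hi := LogK.inst v y (Fm.neg a) ⟨hff, trivial⟩
  rw [hs] at hi
  have e3 := prv_mp (prv_mp (h3 Γ (2 * M + 28) G (.all v (.neg a)) (.neg a') sG
    (by rw [sz_all, sz_neg]; omega) (by rw [sz_neg]; omega)) e2) (prv_log hi)
  -- `H ∧ ¬φ → ∀ y ¬a'`
  have e4 := prv_mp (prv_log (Γ := Γ) (LogK.dist y G (.neg a') hGy)) (prv_gen y e3)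
  -- `H → φ`
  have e5 := prv_mp (prv_mp (h2 Γ (2 * M + 28) (.all y (.neg a')) H φ
    (by rw [sz_all, sz_neg]; omega) (by omega) (by omega)) e4) hE
  refine prv_mono ?_ e5
  simp only [sz_imp, sz_all, sz_neg, sz_and, hG]
  have q2 : C2 * (2 * M + 28 + 1) ≤ 29 * C2 * (M + 1) := by nlinarith [Nat.zero_le (C2 * M)]
  have q3 : C3 * (2 * M + 28 + 1) ≤ 29 * C3 * (M + 1) := by nlinarith [Nat.zero_le (C3 * M)]
  have q4 : (C1 + 29 * C2 + 29 * C3 + 1000) * (M + 1) =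
      C1 * (M + 1) + 29 * C2 * (M + 1) + 29 * C3 * (M + 1) + 1000 * (M + 1) := by ring
  rw [q4]
  omega

theorem lt_mono {M M' : ℕ} (h : M ≤ M') : ∀ {a : At}, a.lt M → a.lt M'
  | .zero _, h1 => lt_of_lt_of_le h1 h
  | .succ _ _, ⟨h1, h2⟩ => ⟨lt_of_lt_of_le h1 h, lt_of_lt_of_le h2 h⟩
  | .add _ _ _, ⟨h1, h2, h3⟩ =>
    ⟨lt_of_lt_of_le h1 h, lt_of_lt_of_le h2 h, lt_of_lt_of_le h3 h⟩
  | .mul _ _ _, ⟨h1, h2, h3⟩ =>
    ⟨lt_of_lt_of_le h1 h, lt_of_lt_of_le h2 h, lt_of_lt_of_le h3 h⟩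
  | .op _ _ _ _ _, ⟨h1, h2, h3, h4⟩ =>
    ⟨lt_of_lt_of_le h1 h, lt_of_lt_of_le h2 h, lt_of_lt_of_le h3 h, lt_of_lt_of_le h4 h⟩

theorem lt_of_intro {j : ℕ} {a : At} (h : Intro j a) : a.lt (j + 1) := by
  cases h with
  | zero => exact Nat.lt_succ_self j
  | succ i hi => exact ⟨by omega, by omega⟩
  | nil => exact ⟨by omega, by omega, by omega, by omega⟩
  | node a b ha hb => exact ⟨by omega, by omega, by omega, by omega⟩

theorem good_lt : ∀ {N : List At}, Good N → ∀ a ∈ N, a.lt N.length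
  | [], _, a, ha => by simp at ha
  | b :: N, ⟨h1, h2⟩, a, ha => by
    rcases List.mem_cons.1 ha with rfl | ha
    · exact lt_of_intro h1
    · exact lt_mono (Nat.le_succ _) (good_lt h2 a ha)

theorem free_fm {M x : ℕ} : ∀ {a : At}, a.lt M → (a.ren (· + VB)).fm.Free x →
    VB ≤ x ∧ x < VB + M := by
  intro a h1 h2
  cases a with
  | zero u =>
    have h3 : x = u + VB := h2
    have h4 : u < M := h1
    omega
  | succ u v =>
    have h3 : x = u + VB ∨ x = v + VB := h2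
    obtain ⟨h4, h5⟩ := h1
    omega
  | add u v w =>
    have h3 : x = u + VB ∨ x = v + VB ∨ x = w + VB := h2
    obtain ⟨h4, h5, h6⟩ := h1
    omega
  | mul u v w =>
    have h3 : x = u + VB ∨ x = v + VB ∨ x = w + VB := h2
    obtain ⟨h4, h5, h6⟩ := h1
    omega
  | op i a b c d =>
    have h3 : x = a + VB ∨ x = b + VB ∨ x = c + VB ∨ x = d + VB := h2
    obtain ⟨h4, h5, h6, h7⟩ := h1
    omega

theorem free_ctx {M x : ℕ} : ∀ {N : List At}, (∀ a ∈ N, a.lt M) → (ctx N).Free x →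
    VB ≤ x ∧ x < VB + M
  | [], _, h => by
    rcases h with h | h <;> exact absurd h id
  | a :: N, h1, h => by
    rcases h with (h | (h | h)) | h
    · exact free_fm (h1 a (by simp)) h
    · exact free_ctx (fun b hb => h1 b (by simp [hb])) h
    · exact absurd h id
    · exact absurd h id

theorem prv_ex_zero (h : ∀ ψ ∈ robinson, ψ ∈ Γ) : Proves Γ 26 (.ex 0 (.zero 0)) :=
  prv_mono (by simp) (prv_ax (h _ (by simp [robinson])))

theorem prv_ex_nil (h : ∀ ψ ∈ ExAx, ψ ∈ Γ) : Proves Γ 30 (.ex 0 (.op iNil 0 0 0 0)) :=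
  prv_mono (by simp [iNil]) (prv_ax (h _ (by simp [ExAx])))

theorem prv_ex_succ (h : ∀ ψ ∈ robinson, ψ ∈ Γ) (u : ℕ) (hu : 3 ≤ u) :
    Proves Γ (3 * u + 300) (.ex 1 (.succ u 1)) := by
  have h1 : Proves Γ _ (.all 0 (.ex 1 (.succ 0 1))) := prv_ax (h _ (by simp [robinson]))
  have h2 := LogK.inst 0 u (Fm.ex 1 (.succ 0 1) : Fml)
    ⟨.inr (.inr ⟨by omega, trivial, trivial⟩), trivial⟩
  have h3 : (Fm.ex 1 (.succ 0 1) : Fml).subst 0 u = Fm.ex 1 (.succ u 1) := by
    simp [Fm.ex, Fm.neg, Fm.subst, Pool.Agent.TH672.Form.ren]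
  rw [h3] at h2
  refine prv_mono ?_ (prv_mp (prv_log h2) h1)
  simp only [sz_imp, sz_all, sz_ex, sz_succ]
  omega

theorem prv_ex_node (h : ∀ ψ ∈ ExAx, ψ ∈ Γ) (u w : ℕ) (hu : 3 ≤ u) (hw : 3 ≤ w) :
    Proves Γ (6 * u + 6 * w + 600) (.ex 2 (.op iNode u w 2 2)) := by
  have h1 : Proves Γ _ (.all 0 (.all 1 (.ex 2 (.op iNode 0 1 2 2)))) :=
    prv_ax (h _ (by simp [ExAx]))
  have h2 := LogK.inst 0 u (Fm.all 1 (.ex 2 (.op iNode 0 1 2 2)) : Fml)
    (.inr (.inr ⟨by omega, .inr (.inr ⟨by omega, trivial, trivial⟩), trivial⟩))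
  have h3 : (Fm.all 1 (.ex 2 (.op iNode 0 1 2 2)) : Fml).subst 0 u =
      Fm.all 1 (.ex 2 (.op iNode u 1 2 2)) := by
    simp [Fm.ex, Fm.neg, Fm.subst, Pool.Agent.TH672.Form.ren]
  rw [h3] at h2
  have h4 := LogK.inst 1 w (Fm.ex 2 (.op iNode u 1 2 2) : Fml)
    ⟨.inr (.inr ⟨by omega, trivial, trivial⟩), trivial⟩
  have h5 : (Fm.ex 2 (.op iNode u 1 2 2) : Fml).subst 1 w = Fm.ex 2 (.op iNode u w 2 2) := by
    have : u ≠ 1 := by omega
    simp [Fm.ex, Fm.neg, Fm.subst, Pool.Agent.TH672.Form.ren, this]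
  rw [h5] at h4
  refine prv_mono ?_ (prv_mp (prv_log h4) (prv_mp (prv_log h2) h1))
  simp only [sz_imp, sz_all, sz_ex, sz_op, iNode]
  omega

theorem elim_aux : ∃ C, ∀ (Γ : List Fml) (M : ℕ) (φ : Fml),
    (∀ ψ ∈ robinson, ψ ∈ Γ) → (∀ ψ ∈ ExAx, ψ ∈ Γ) → φ.Closed → sz φ ≤ M →
    ∀ (N : List At) (m : ℕ), Good N → 20 * sz (ctx N) + 2000 ≤ M →
    Proves Γ m ((ctx N).imp φ) → Proves Γ (m + N.length * (C * (M + 1)) + 2 * M) φ := by
  obtain ⟨C, hC⟩ := step
  refine ⟨C, fun Γ M φ hR hE hφ sφ => ?_⟩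
  intro N
  induction N with
  | nil =>
    intro m _ hM h
    have h1 := prv_of_dv (Dv.id Γ (Both.bot (k := 0)))
    refine prv_mono ?_ (prv_mp h h1)
    rw [sz_bot]
    simp only [List.length_nil, Nat.zero_mul]
    omega
  | cons a N ih =>
    intro m hg hM h
    obtain ⟨hg1, hg2⟩ := hg
    have hfree : ∀ x, (ctx N).Free x → VB ≤ x ∧ x < VB + N.length := fun x hx =>
      free_ctx (good_lt hg2) hx
    have hn1 : ¬ (ctx N).Free (N.length + VB) := fun h' => by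
      have := hfree _ h'
      omega
    have hVB : VB = 60 := rfl
    have hn2 : ∀ y ≤ 2, ¬ (ctx N).Free y := fun y hy h' => by
      have := hfree _ h'
      omega
    have hsz : sz (ctx (a :: N)) = 20 + sz (a.ren (· + VB)).fm + sz (ctx N) := by
      show sz (.and _ _) = _
      rw [sz_and]
    have key : Proves Γ (m + C * (M + 1)) (.imp (ctx N) φ) := by
      cases hg1 with
      | zero =>
        have e1 : sz ((At.zero N.length).ren (· + VB)).fm = 4 + (N.length + VB + 1) := sz_zero _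
        refine hC Γ M m (.zero (N.length + VB)) (.zero 0) (ctx N) φ (N.length + VB) 0 ?_ ?_ sφ ?_ ?_
          ?_ trivial ?_ hn1 (hn2 0 (by omega)) hφ (prv_mono ?_ (prv_ex_zero hR)) h
        · rw [sz_zero]; omega
        · omega
        · rw [sz_zero]; omega
        · omega
        · omega
        · simp [Fm.subst, Pool.Agent.TH672.Form.ren]
        · omega
      | succ i hi =>
        have e1 : sz ((At.succ i N.length).ren (· + VB)).fm =
            4 + (i + VB + 1) + (N.length + VB + 1) := sz_succ _ _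
        refine hC Γ M m (.succ (i + VB) (N.length + VB)) (.succ (i + VB) 1) (ctx N) φ
          (N.length + VB) 1 ?_ ?_ sφ ?_ ?_ ?_ trivial ?_ hn1 (hn2 1 (by omega)) hφ
          (prv_mono ?_ (prv_ex_succ hR (i + VB) (by omega))) h
        · rw [sz_succ]; omega
        · omega
        · rw [sz_succ]; omega
        · omega
        · omega
        · have : i ≠ N.length := by omega
          simp [Fm.subst, Pool.Agent.TH672.Form.ren, this]
        · omega
      | nil =>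
        have e1 : sz ((At.op iNil N.length N.length N.length N.length).ren (· + VB)).fm =
            4 + (iNil + 1) + (N.length + VB + 1) + (N.length + VB + 1) + (N.length + VB + 1) +
              (N.length + VB + 1) := sz_op _ _ _ _ _
        refine hC Γ M m (.op iNil (N.length + VB) (N.length + VB) (N.length + VB) (N.length + VB))
          (.op iNil 0 0 0 0) (ctx N) φ (N.length + VB) 0 ?_ ?_ sφ ?_ ?_ ?_ trivial ?_ hn1
          (hn2 0 (by omega)) hφ (prv_mono ?_ (prv_ex_nil hE)) h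
        · rw [sz_op]; omega
        · omega
        · rw [sz_op]; simp only [iNil]; omega
        · omega
        · omega
        · simp [Fm.subst, Pool.Agent.TH672.Form.ren]
        · omega
      | node b c hb hc =>
        have e1 : sz ((At.op iNode b c N.length N.length).ren (· + VB)).fm =
            4 + (iNode + 1) + (b + VB + 1) + (c + VB + 1) + (N.length + VB + 1) +
              (N.length + VB + 1) := sz_op _ _ _ _ _
        refine hC Γ M m (.op iNode (b + VB) (c + VB) (N.length + VB) (N.length + VB))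
          (.op iNode (b + VB) (c + VB) 2 2) (ctx N) φ (N.length + VB) 2 ?_ ?_ sφ ?_ ?_ ?_ trivial ?_
          hn1 (hn2 2 (by omega)) hφ
          (prv_mono ?_ (prv_ex_node hE (b + VB) (c + VB) (by omega) (by omega))) h
        · rw [sz_op]; omega
        · omega
        · rw [sz_op]; omega
        · omega
        · omega
        · have h1 : b ≠ N.length := by omega
          have h2 : c ≠ N.length := by omega
          simp [Fm.subst, Pool.Agent.TH672.Form.ren, h1, h2]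
        · omega
    have h2 := ih (m + C * (M + 1)) hg2 (by omega) key
    refine prv_mono (le_of_eq ?_) h2
    rw [List.length_cons]
    ring

theorem len_le_sz : ∀ N : List At, N.length ≤ sz (ctx N)
  | [] => Nat.zero_le _
  | a :: N => by
    have h1 := len_le_sz N
    have h2 : sz (ctx (a :: N)) = 20 + sz (a.ren (· + VB)).fm + sz (ctx N) := by
      show sz (.and _ _) = _
      rw [sz_and]
    rw [List.length_cons]
    omega

/-- (S3) -/
theorem sElim : SElim := by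
  obtain ⟨C, hC⟩ := elim_aux
  refine ⟨C + 20, fun Γ N m φ hR hE hg hφ h => ?_⟩
  have h1 := sz_le_of_prv h
  rw [sz_imp] at h1
  have h2 := hC Γ (20 * m + 2000) φ hR hE hφ (by omega) N m hg (by omega) h
  refine prv_mono ?_ h2
  have h3 := len_le_sz N
  unfold pb
  have h4 : N.length ≤ m := by omega
  have h5 : m + N.length * (C * (20 * m + 2000 + 1)) + 2 * (20 * m + 2000) ≤
      (C + 1) * (4001 * (m + 2) ^ 2) := by
    have h6 : N.length * (C * (20 * m + 2000 + 1)) ≤ m * (C * (20 * m + 2000 + 1)) :=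
      Nat.mul_le_mul_right _ h4
    have h7 : m * (C * (20 * m + 2000 + 1)) ≤ C * (4001 * (m + 2) ^ 2) := by
      have : m * (20 * m + 2000 + 1) ≤ 4001 * (m + 2) ^ 2 := by nlinarith
      calc m * (C * (20 * m + 2000 + 1)) = C * (m * (20 * m + 2000 + 1)) := by ring
        _ ≤ _ := Nat.mul_le_mul_left _ this
    have h8 : m + 2 * (20 * m + 2000) ≤ 4001 * (m + 2) ^ 2 := by nlinarith
    have h9 : (C + 1) * (4001 * (m + 2) ^ 2) = C * (4001 * (m + 2) ^ 2) + 4001 * (m + 2) ^ 2 := by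
      ring
    rw [h9]
    linarith [h6.trans h7, h8]
  refine h5.trans ?_
  have h10 : C + 1 ≤ (m + 2) ^ C := by
    calc C + 1 ≤ 2 ^ C := Nat.lt_two_pow_self
      _ ≤ (m + 2) ^ C := Nat.pow_le_pow_left (by omega) _
  have h11 : 4001 ≤ (m + 2) ^ 12 := by
    calc 4001 ≤ 2 ^ 12 := by norm_num
      _ ≤ (m + 2) ^ 12 := Nat.pow_le_pow_left (by omega) _
  calc (C + 1) * (4001 * (m + 2) ^ 2) ≤ (m + 2) ^ C * ((m + 2) ^ 12 * (m + 2) ^ 2) :=
        Nat.mul_le_mul h10 (Nat.mul_le_mul_right _ h11)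
    _ = (m + 2) ^ (C + 14) := by ring
    _ ≤ (m + 2) ^ (C + 20) := Nat.pow_le_pow_right (by omega) (by omega)

end Pool.Agent.T9h80.IO
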